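import Mathlib

/-!
A subgroup `H` of the reals, built from a free ultrafilter, that is covered by countably many closed
null sets and such that every Borel set that contains `0` and is invariant under `H` is everything.
-/

set_option autoImplicit false

namespace Pool.Agent.H774Z.Hull

open MeasureTheory Filter Topology Set

/-- The dual ideal of the free ultrafilter, as a subset of the Cantor group. -/
def dualU : Set (ℕ → ZMod 2) := {y | {n | y n = 0} ∈ hyperfilter ℕ}

theorem zmod2_cases (a : ZMod 2) : a = 0 ∨ a = 1 := by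
  revert a; decide

theorem dualU_not_measurable : ¬ MeasurableSet dualU := by
  intro hm
  let μ : Measure (ℕ → ZMod 2) := Measure.addHaar
  have hcover : (univ : Set (ℕ → ZMod 2)) ⊆ dualU ∪ (fun y => (fun _ => (1 : ZMod 2)) + y) ⁻¹' dualU := by
    intro y _
    by_cases h : {n | y n = 0} ∈ hyperfilter ℕ
    · exact Or.inl h
    · right
      have h2 := Ultrafilter.compl_mem_iff_notMem.2 h
      refine Filter.mem_of_superset h2 ?_
      intro n hn
      have h1 : y n = 1 := (zmod2_cases (y n)).resolve_left hn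
      show (1 : ZMod 2) + y n = 0
      rw [h1]; decide
  have hpos : 0 < μ dualU := by
    by_contra h0
    have h0' : μ dualU = 0 := by simpa using h0
    have h1 : μ ((fun y => (fun _ => (1 : ZMod 2)) + y) ⁻¹' dualU) = 0 := by
      rw [measure_preimage_add]; exact h0'
    have h2 : μ univ = 0 := measure_mono_null hcover (measure_union_null h0' h1)
    exact (IsOpen.measure_pos μ isOpen_univ univ_nonempty).ne' h2
  have hst := Measure.sub_mem_nhds_zero_of_addHaar_pos μ dualU hm hpos
  have hlim : Tendsto (fun N : ℕ => fun n : ℕ => if N ≤ n then (1 : ZMod 2) else 0) atTop (𝓝 0) := by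
    rw [tendsto_pi_nhds]
    intro n
    refine tendsto_const_nhds.congr' ?_
    filter_upwards [eventually_gt_atTop n] with N hN
    simp [not_le.2 hN]
  obtain ⟨N, hN⟩ := (hlim.eventually hst).exists
  obtain ⟨a, ha, b, hb, hab⟩ := hN
  have hfin : {n : ℕ | N ≤ n} ∈ hyperfilter ℕ := by
    apply mem_hyperfilter_of_finite_compl
    refine (Set.finite_lt_nat N).subset ?_
    intro n hn
    simpa using hn
  have hne := Filter.nonempty_of_mem (Filter.inter_mem hfin (Filter.inter_mem ha hb))
  obtain ⟨n, hn, h1, h2⟩ := hne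
  have h3 := congrFun hab n
  simp only [Pi.sub_apply] at h3
  have hn' : N ≤ n := hn
  have h1' : a n = 0 := h1
  have h2' : b n = 0 := h2
  rw [h1', h2', if_pos hn'] at h3
  rw [sub_zero] at h3
  exact zero_ne_one h3

/-- A measurable subset of the Cantor group which contains `0` and is invariant under the dual ideal
contains the constant sequence `1`. -/
theorem one_mem_of_invariant (S : Set (ℕ → ZMod 2)) (hS : MeasurableSet S) (h0 : (0 : ℕ → ZMod 2) ∈ S)
    (hinv : ∀ y y', y ∈ S → {n | y n = y' n} ∈ hyperfilter ℕ → y' ∈ S) :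
    (fun _ => (1 : ZMod 2)) ∈ S := by
  by_contra h1
  apply dualU_not_measurable
  have : dualU = S := by
    ext y
    constructor
    · intro hy
      refine hinv 0 y h0 (Filter.mem_of_superset hy ?_)
      intro n hn
      exact (show y n = 0 from hn).symm
    · intro hy
      by_contra hn
      apply h1
      have h2 := Ultrafilter.compl_mem_iff_notMem.2 hn
      refine hinv y _ hy (Filter.mem_of_superset h2 ?_)
      intro n hn
      exact (zmod2_cases (y n)).resolve_left hn
  rw [this]; exact hS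

/-- the reals `x` such that `k! x` tends to `0` modulo one along the column `n` -/
def col (n : ℕ) : Set ℝ :=
  {x | Tendsto (fun i : ℕ => ‖((((Nat.pair n i).factorial : ℝ) * x : ℝ) : UnitAddCircle)‖) atTop (𝓝 0)}

/-- the subgroup -/
def H : Set ℝ := {x | {n | x ∈ col n} ∈ hyperfilter ℕ}

theorem col_sub {n : ℕ} {x y : ℝ} (hx : x ∈ col n) (hy : y ∈ col n) : x - y ∈ col n := by
  have h := Tendsto.add hx hy
  rw [add_zero] at h
  refine squeeze_zero (fun _ => norm_nonneg _) (fun i => ?_) h
  rw [mul_sub, AddCircle.coe_sub]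
  exact norm_sub_le _ _

theorem int_mem_col (n : ℕ) (m : ℤ) : (m : ℝ) ∈ col n := by
  refine tendsto_const_nhds.congr (fun i => ?_)
  have : ((((Nat.pair n i).factorial : ℝ) * (m : ℝ) : ℝ) : UnitAddCircle) = 0 := by
    rw [AddCircle.coe_eq_zero_iff]
    exact ⟨((Nat.pair n i).factorial : ℤ) * m, by simp⟩
  rw [this, norm_zero]

theorem H_sub {x y : ℝ} (hx : x ∈ H) (hy : y ∈ H) : x - y ∈ H :=
  Filter.mem_of_superset (Filter.inter_mem hx hy) (fun _ h => col_sub h.1 h.2)

theorem int_mem_H (m : ℤ) : (m : ℝ) ∈ H :=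
  Filter.mem_of_superset Filter.univ_mem (fun n _ => int_mem_col n m)

theorem zero_mem_H : (0 : ℝ) ∈ H := by simpa using int_mem_H 0

theorem H_neg {x : ℝ} (hx : x ∈ H) : -x ∈ H := by simpa using H_sub zero_mem_H hx

theorem H_add {x y : ℝ} (hx : x ∈ H) (hy : y ∈ H) : x + y ∈ H := by
  simpa using H_sub hx (H_neg hy)

/-- approximation of `x` from below with denominator `k!` -/
noncomputable def appr (x : ℝ) (k : ℕ) : ℝ := (⌊(k.factorial : ℝ) * x⌋ : ℝ) / k.factorial

/-- the `k`-th block of `x` -/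
noncomputable def blk (x : ℝ) (k : ℕ) : ℝ := appr x (k + 1) - appr x k

theorem fact_pos (k : ℕ) : (0 : ℝ) < k.factorial := by exact_mod_cast Nat.factorial_pos k

theorem appr_le (x : ℝ) (k : ℕ) : appr x k ≤ x := by
  unfold appr
  rw [div_le_iff₀ (fact_pos k), mul_comm x]
  exact Int.floor_le _

theorem lt_appr (x : ℝ) (k : ℕ) : x - appr x k ≤ 1 / k.factorial := by
  unfold appr
  have h := Int.lt_floor_add_one ((k.factorial : ℝ) * x)
  have hp := fact_pos k
  rw [sub_le_iff_le_add, ← add_div, le_div_iff₀ hp]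
  linarith

theorem blk_nonneg (x : ℝ) (k : ℕ) : 0 ≤ blk x k := by
  unfold blk appr
  rw [sub_nonneg, div_le_div_iff₀ (fact_pos _) (fact_pos _)]
  have h1 : ((k + 1 : ℕ) : ℤ) * ⌊(k.factorial : ℝ) * x⌋ ≤ ⌊((k + 1).factorial : ℝ) * x⌋ := by
    rw [Int.le_floor]
    have h := Int.floor_le ((k.factorial : ℝ) * x)
    have hk : (0 : ℝ) ≤ ((k + 1 : ℕ) : ℝ) := by positivity
    have := mul_le_mul_of_nonneg_left h hk
    push_cast [Nat.factorial_succ] at this ⊢
    linarith
  have h2 : ((k + 1 : ℕ) : ℝ) * (⌊(k.factorial : ℝ) * x⌋ : ℝ) ≤ (⌊((k + 1).factorial : ℝ) * x⌋ : ℝ) := by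
    exact_mod_cast h1
  have hp := fact_pos k
  have := mul_le_mul_of_nonneg_right h2 hp.le
  rw [Nat.factorial_succ k] at this ⊢
  push_cast at this ⊢
  linarith

theorem sum_blk (x : ℝ) (a k : ℕ) :
    ∑ j ∈ Finset.range k, blk x (j + a) = appr x (k + a) - appr x a := by
  induction k with
  | zero => simp
  | succ k ih =>
    rw [Finset.sum_range_succ, ih]
    unfold blk
    rw [show k + 1 + a = k + a + 1 by ring]
    ring

theorem tendsto_appr (x : ℝ) : Tendsto (appr x) atTop (𝓝 x) := by
  have h1 : Tendsto (fun k : ℕ => (1 : ℝ) / k.factorial) atTop (𝓝 0) := by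
    refine tendsto_const_nhds.div_atTop ?_
    exact tendsto_natCast_atTop_atTop.comp factorial_tendsto_atTop
  have h2 : Tendsto (fun k : ℕ => x - appr x k) atTop (𝓝 0) :=
    squeeze_zero (fun k => sub_nonneg.2 (appr_le x k)) (lt_appr x) h1
  have h3 := (tendsto_const_nhds (x := x)).sub h2
  simpa using h3

theorem hasSum_blk (x : ℝ) (a : ℕ) : HasSum (fun j => blk x (j + a)) (x - appr x a) := by
  rw [hasSum_iff_tendsto_nat_of_nonneg (fun j => blk_nonneg x _)]
  simp only [sum_blk]
  exact ((tendsto_appr x).comp (tendsto_add_atTop_nat a)).sub_const _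

theorem summable_blk (x : ℝ) : Summable (blk x) := by
  simpa using (hasSum_blk x 0).summable

theorem blk_int (x : ℝ) {j k : ℕ} (h : j < k) : ∃ m : ℤ, (k.factorial : ℝ) * blk x j = m := by
  obtain ⟨c, hc⟩ := Nat.factorial_dvd_factorial (show j + 1 ≤ k from h)
  obtain ⟨d, hd⟩ := Nat.factorial_dvd_factorial (show j ≤ k from h.le)
  refine ⟨c * ⌊((j + 1).factorial : ℝ) * x⌋ - d * ⌊(j.factorial : ℝ) * x⌋, ?_⟩
  have h1 := (fact_pos (j + 1)).ne'
  have h2 := (fact_pos j).ne'
  have hc' : (k.factorial : ℝ) = (j + 1).factorial * c := by exact_mod_cast hc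
  have hd' : (k.factorial : ℝ) = j.factorial * d := by exact_mod_cast hd
  unfold blk appr
  rw [mul_sub]
  push_cast
  congr 1
  · rw [hc']; field_simp
  · rw [hd']; field_simp

theorem norm_le_of_zero (x : ℝ) (ε : ℕ → ℤ) (hε : ∀ j, |(ε j : ℝ)| ≤ 1) (k : ℕ) (hk : ε k = 0) :
    ‖(((k.factorial : ℝ) * ∑' j, (ε j : ℝ) * blk x j : ℝ) : UnitAddCircle)‖ ≤ 1 / ((k : ℝ) + 1) := by
  have hb : ∀ j, ‖(ε j : ℝ) * blk x j‖ ≤ blk x j := by
    intro j
    rw [norm_mul, Real.norm_eq_abs, Real.norm_eq_abs, abs_of_nonneg (blk_nonneg x j)]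
    exact mul_le_of_le_one_left (blk_nonneg x j) (hε j)
  have hs : Summable (fun j => (ε j : ℝ) * blk x j) := Summable.of_norm_bounded (summable_blk x) hb
  rw [← hs.sum_add_tsum_nat_add (k + 1), Finset.sum_range_succ, hk]
  have hint : ∃ m : ℤ, (k.factorial : ℝ) * ∑ j ∈ Finset.range k, (ε j : ℝ) * blk x j = m := by
    have : ∀ j ∈ Finset.range k, ∃ m : ℤ, (k.factorial : ℝ) * ((ε j : ℝ) * blk x j) = m := by
      intro j hj
      obtain ⟨m, hm⟩ := blk_int x (Finset.mem_range.1 hj)
      exact ⟨ε j * m, by push_cast; rw [← hm]; ring⟩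
    choose! m hm using this
    refine ⟨∑ j ∈ Finset.range k, m j, ?_⟩
    rw [Finset.mul_sum, Finset.sum_congr rfl hm]
    push_cast; rfl
  obtain ⟨m, hm⟩ := hint
  simp only [Int.cast_zero, zero_mul, add_zero]
  rw [mul_add, hm, AddCircle.coe_add]
  have hm0 : ((m : ℝ) : UnitAddCircle) = 0 := by
    rw [AddCircle.coe_eq_zero_iff]
    exact ⟨m, by simp⟩
  rw [hm0, zero_add]
  refine le_trans QuotientAddGroup.norm_mk_le_norm ?_
  have ht : ‖∑' j, (ε (j + (k + 1)) : ℝ) * blk x (j + (k + 1))‖ ≤ x - appr x (k + 1) :=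
    tsum_of_norm_bounded (hasSum_blk x (k + 1)) (fun j => hb _)
  have h2 := lt_appr x (k + 1)
  rw [norm_mul, Real.norm_eq_abs, abs_of_pos (fact_pos k)]
  have hp := fact_pos k
  calc (k.factorial : ℝ) * ‖∑' j, (ε (j + (k + 1)) : ℝ) * blk x (j + (k + 1))‖
      ≤ k.factorial * (1 / (k + 1).factorial) := mul_le_mul_of_nonneg_left (ht.trans h2) hp.le
    _ = 1 / ((k : ℝ) + 1) := by
      rw [Nat.factorial_succ]; push_cast; field_simp

/-- integer value of a bit -/
def bit (a : ZMod 2) : ℤ := if a = 1 then 1 else 0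

/-- the part of `x` on the columns selected by `y` -/
noncomputable def part (x : ℝ) (y : ℕ → ZMod 2) : ℝ :=
  ∑' j, (bit (y (Nat.unpair j).1) : ℝ) * blk x j

theorem bit_abs (a : ZMod 2) : |(bit a : ℝ)| ≤ 1 := by
  unfold bit; split_ifs <;> simp

theorem bit_sub_abs (a b : ZMod 2) : |((bit a - bit b : ℤ) : ℝ)| ≤ 1 := by
  unfold bit; split_ifs <;> simp

theorem part_bound (x : ℝ) (y : ℕ → ZMod 2) (j : ℕ) :
    ‖(bit (y (Nat.unpair j).1) : ℝ) * blk x j‖ ≤ blk x j := by
  rw [norm_mul, Real.norm_eq_abs, Real.norm_eq_abs, abs_of_nonneg (blk_nonneg x j)]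
  exact mul_le_of_le_one_left (blk_nonneg x j) (bit_abs _)

theorem continuous_part (x : ℝ) : Continuous (part x) := by
  refine continuous_tsum (fun j => ?_) (summable_blk x) (fun j y => part_bound x y j)
  refine Continuous.mul ?_ continuous_const
  exact (continuous_of_discreteTopology (f := fun a : ZMod 2 => (bit a : ℝ))).comp
    (continuous_apply _)

theorem part_zero (x : ℝ) : part x 0 = 0 := by
  simp [part, bit]

theorem part_one (x : ℝ) : part x (fun _ => 1) = x - (⌊x⌋ : ℝ) := by
  have h := (hasSum_blk x 0).tsum_eq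
  simp only [add_zero] at h
  simp [part, bit, h, appr]

theorem part_sub_mem (x : ℝ) (y y' : ℕ → ZMod 2) (h : {n | y n = y' n} ∈ hyperfilter ℕ) :
    part x y' - part x y ∈ H := by
  refine Filter.mem_of_superset h (fun n hn => ?_)
  have hn' : y n = y' n := hn
  have hs : ∀ z : ℕ → ZMod 2, Summable (fun j => (bit (z (Nat.unpair j).1) : ℝ) * blk x j) :=
    fun z => Summable.of_norm_bounded (summable_blk x) (part_bound x z)
  have e : part x y' - part x y =
      ∑' j, ((bit (y' (Nat.unpair j).1) - bit (y (Nat.unpair j).1) : ℤ) : ℝ) * blk x j := by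
    unfold part
    rw [← (hs y').tsum_sub (hs y)]
    congr 1; ext j; push_cast; ring
  show Tendsto _ _ _
  rw [e]
  have hlim : Tendsto (fun i : ℕ => (1 : ℝ) / ((i : ℝ) + 1)) atTop (𝓝 0) :=
    tendsto_one_div_add_atTop_nhds_zero_nat
  refine squeeze_zero (fun _ => norm_nonneg _) (fun i => ?_) hlim
  refine le_trans (norm_le_of_zero x _ (fun j => bit_sub_abs _ _) (Nat.pair n i) ?_) ?_
  · simp [Nat.unpair_pair, hn']
  · apply one_div_le_one_div_of_le (by positivity)
    have : (i : ℝ) ≤ (Nat.pair n i : ℝ) := by exact_mod_cast Nat.right_le_pair n i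
    linarith

/-- Every Borel set of reals that contains `0` and is invariant under `H` is everything. -/
theorem eq_univ_of_invariant (B : Set ℝ) (hB : MeasurableSet B) (h0 : (0 : ℝ) ∈ B)
    (hinv : ∀ b ∈ B, ∀ h ∈ H, b + h ∈ B) (x : ℝ) : x ∈ B := by
  have h1 := one_mem_of_invariant (part x ⁻¹' B) ((continuous_part x).measurable hB)
    (by simpa [part_zero] using h0)
    (fun y y' hy hyy' => by
      have := hinv _ hy _ (part_sub_mem x y y' hyy')
      simpa using this)
  have h2 : x - (⌊x⌋ : ℝ) ∈ B := by simpa [part_one] using h1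
  simpa using hinv _ h2 _ (int_mem_H ⌊x⌋)

end Pool.Agent.H774Z.Hull
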