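import Mathlib

/-! Borel hull operations on a family of subsets of `ℝⁿ`. -/

set_option autoImplicit false

namespace Pool.Agent.H774Z.Hull

open MeasureTheory

/-- The ideal of Lebesgue null subsets of `ℝⁿ`. -/
def nullIdeal (n : ℕ) : Set (Set (EuclideanSpace ℝ (Fin n))) := {A | volume A = 0}

/-- The ideal of meager subsets of `ℝⁿ`. -/
def meagerIdeal (n : ℕ) : Set (Set (EuclideanSpace ℝ (Fin n))) := {A | IsMeagre A}

/-- `ψ : I → I` is a Borel hull operation: `ψ A` is a Borel set containing `A`. -/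
def IsBorelHull {n : ℕ} (I : Set (Set (EuclideanSpace ℝ (Fin n)))) (ψ : I → I) : Prop :=
  ∀ A : I, @MeasurableSet _ (borel (EuclideanSpace ℝ (Fin n))) (ψ A).1 ∧ A.1 ⊆ (ψ A).1

/-- `ψ : I → I` is translation invariant: `ψ (A + x) = ψ A + x`. -/
def IsTranslationInvariant {n : ℕ} (I : Set (Set (EuclideanSpace ℝ (Fin n)))) (ψ : I → I) : Prop :=
  ∀ (A B : I) (x : EuclideanSpace ℝ (Fin n)),
    B.1 = (fun a => a + x) '' A.1 → (ψ B).1 = (fun a => a + x) '' (ψ A).1

end Pool.Agent.H774Z.Hull
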