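import Pool.Agent.H774Z.Hull.Core
import Pool.Agent.H774Z.Hull.Defs

set_option autoImplicit false

namespace Pool.Agent.H774Z.Hull

open MeasureTheory Filter Topology Set

variable {n : ℕ}

/-- the closed pieces that cover the subgroup -/
def piece (i : Fin n) (c N : ℕ) : Set (EuclideanSpace ℝ (Fin n)) :=
  {x | ∀ m, N ≤ m → ‖((((Nat.pair c m).factorial : ℝ) * x i : ℝ) : UnitAddCircle)‖ ≤ 1 / 8}

theorem isClosed_piece (i : Fin n) (c N : ℕ) : IsClosed (piece i c N) := by
  unfold piece
  simp only [setOf_forall]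
  refine isClosed_iInter fun m => isClosed_iInter fun _ => ?_
  refine isClosed_le ?_ continuous_const
  refine Continuous.norm ?_
  exact (AddCircle.continuous_mk' 1).comp (by fun_prop)

theorem volume_piece (i : Fin n) (c N : ℕ) : volume (piece i c N) = 0 := by
  by_contra h0
  have hpos : 0 < volume (piece i c N) := pos_iff_ne_zero.2 h0
  have hst := Measure.sub_mem_nhds_zero_of_addHaar_pos volume _
    (isClosed_piece i c N).measurableSet hpos
  have h1 : Tendsto (fun m : ℕ => (1 / 2 : ℝ) / (Nat.pair c m).factorial) atTop (𝓝 0) := by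
    refine tendsto_const_nhds.div_atTop ?_
    refine tendsto_natCast_atTop_atTop.comp (factorial_tendsto_atTop.comp ?_)
    exact tendsto_atTop_mono (fun m => Nat.right_le_pair c m) tendsto_id
  have h2 : Tendsto (fun m : ℕ => ((1 / 2 : ℝ) / (Nat.pair c m).factorial) •
      (EuclideanSpace.single i (1 : ℝ) : EuclideanSpace ℝ (Fin n))) atTop (𝓝 0) := by
    simpa using h1.smul_const (EuclideanSpace.single i (1 : ℝ) : EuclideanSpace ℝ (Fin n))
  obtain ⟨m, hm, hNm⟩ := ((h2.eventually hst).and (eventually_ge_atTop N)).exists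
  obtain ⟨a, ha, b, hb, hab⟩ := hm
  have h3 : a i - b i = (1 / 2 : ℝ) / (Nat.pair c m).factorial := by
    have := congrArg (fun v : EuclideanSpace ℝ (Fin n) => v i) hab
    simpa using this
  have ha' := ha m hNm
  have hb' := hb m hNm
  have h4 : ‖((((Nat.pair c m).factorial : ℝ) * (a i - b i) : ℝ) : UnitAddCircle)‖ ≤ 1 / 4 := by
    rw [mul_sub, AddCircle.coe_sub]
    refine (norm_sub_le _ _).trans ?_
    linarith
  have h5 : ((Nat.pair c m).factorial : ℝ) * (a i - b i) = 1 / 2 := by
    rw [h3]; have := (fact_pos (Nat.pair c m)).ne'; field_simp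
  rw [h5, AddCircle.norm_half_period_eq] at h4
  norm_num at h4

/-- the subgroup of `ℝⁿ` -/
def HH (i : Fin n) : Set (EuclideanSpace ℝ (Fin n)) := {x | x i ∈ H}

theorem HH_subset (i : Fin n) : HH i ⊆ ⋃ p : ℕ × ℕ, piece i p.1 p.2 := by
  intro x hx
  obtain ⟨c, hc⟩ := Filter.nonempty_of_mem (show {c | x i ∈ col c} ∈ hyperfilter ℕ from hx)
  have hc' : Tendsto _ _ _ := hc
  have := hc'.eventually (ge_mem_nhds (show (0 : ℝ) < 1 / 8 by norm_num))
  obtain ⟨N, hN⟩ := eventually_atTop.1 this
  exact mem_iUnion.2 ⟨(c, N), hN⟩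

theorem HH_null (i : Fin n) : volume (HH i) = 0 :=
  measure_mono_null (HH_subset i) (measure_iUnion_null fun p => volume_piece i p.1 p.2)

theorem HH_meagre (i : Fin n) : IsMeagre (HH i) := by
  refine IsMeagre.mono (HH_subset i) (isMeagre_iUnion fun p => IsNowhereDense.isMeagre ?_)
  rw [(isClosed_piece i p.1 p.2).isNowhereDense_iff]
  exact Measure.interior_eq_empty_of_null (volume_piece i p.1 p.2)

theorem HH_translate (i : Fin n) {h : EuclideanSpace ℝ (Fin n)} (hh : h ∈ HH i) :
    HH i = (fun a => a + h) '' HH i := by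
  ext x
  constructor
  · intro hx
    refine ⟨x - h, ?_, by simp⟩
    show (x - h) i ∈ H
    simpa using H_sub hx hh
  · rintro ⟨a, ha, rfl⟩
    show (a + h) i ∈ H
    simpa using H_add ha hh

theorem univ_of_invariant (i : Fin n) (B : Set (EuclideanSpace ℝ (Fin n))) (hB : MeasurableSet B)
    (hsub : HH i ⊆ B) (hinv : ∀ h ∈ HH i, B = (fun a => a + h) '' B) : B = univ := by
  have hadd : ∀ b ∈ B, ∀ h ∈ HH i, b + h ∈ B := by
    intro b hb h hh
    rw [hinv h hh]
    exact ⟨b, hb, rfl⟩
  let e : ℝ → EuclideanSpace ℝ (Fin n) := fun t => t • EuclideanSpace.single i (1 : ℝ)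
  have he : Continuous e := by fun_prop
  have hei : ∀ t, e t i = t := by intro t; simp [e]
  have hall := eq_univ_of_invariant (e ⁻¹' B) (he.measurable hB)
    (hsub (show e 0 i ∈ H by rw [hei]; exact zero_mem_H))
    (fun b hb h hh => by
      have := hadd _ hb (e h) (show e h i ∈ H by rw [hei]; exact hh)
      show e (b + h) ∈ B
      simpa [e, add_smul] using this)
  refine eq_univ_of_forall fun x => ?_
  have h1 := hadd _ (hall (x i)) (x - e (x i)) (show (x - e (x i)) i ∈ H by
    simpa [hei] using zero_mem_H)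
  simpa using h1

/-- No family of subsets of `ℝⁿ` that contains the subgroup but not the whole space carries a
translation invariant Borel hull operation. -/
theorem no_hull (i : Fin n) (I : Set (Set (EuclideanSpace ℝ (Fin n)))) (hH : HH i ∈ I)
    (hI : univ ∉ I) : ¬ ∃ ψ : I → I, IsBorelHull I ψ ∧ IsTranslationInvariant I ψ := by
  rintro ⟨ψ, h1, h2⟩
  obtain ⟨hm, hs⟩ := h1 ⟨HH i, hH⟩
  have hm' : MeasurableSet (ψ ⟨HH i, hH⟩).1 := by
    rwa [← BorelSpace.measurable_eq (α := EuclideanSpace ℝ (Fin n))] at hm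
  have hu := univ_of_invariant i _ hm' hs
    (fun h hh => h2 ⟨HH i, hH⟩ ⟨HH i, hH⟩ h (HH_translate i hh))
  exact hI (hu ▸ (ψ ⟨HH i, hH⟩).2)

theorem main (hn : 1 ≤ n) (I : Set (Set (EuclideanSpace ℝ (Fin n))))
    (hI : I = nullIdeal n ∨ I = meagerIdeal n) :
    ¬ ∃ ψ : I → I, IsBorelHull I ψ ∧ IsTranslationInvariant I ψ := by
  let i : Fin n := ⟨0, hn⟩
  rcases hI with rfl | rfl
  · refine no_hull i _ (HH_null i) ?_
    exact (IsOpen.measure_pos volume isOpen_univ univ_nonempty).ne'
  · refine no_hull i _ (HH_meagre i) ?_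
    exact not_isMeagre_of_isOpen isOpen_univ univ_nonempty

end Pool.Agent.H774Z.Hull
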